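import Pool.Agent.TXL.Def2

/-!
MODULE ROC-Comp.  Limits of normalized limits are limits: composition of two places.
-/

set_option autoImplicit false

namespace Pool.Agent.ROC

open MvPolynomial
open Pool.Agent.TXL

/-- composition of two places -/
private theorem Comp_place {O₁ K₁ O K F : Type*} [CommRing O₁] [IsDomain O₁] [ValuationRing O₁] [Field K₁]
    [Algebra O₁ K₁] [IsFractionRing O₁ K₁] [CommRing O] [IsDomain O] [ValuationRing O] [Field K] [Algebra O K]
    [IsFractionRing O K] [Field F] (res₁ : O₁ →+* K) [IsLocalHom res₁] (res : O →+* F) [IsLocalHom res] :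
    ∃ (O₂ : ValuationSubring K₁) (res₂ : O₂ →+* F), IsLocalHom res₂ ∧ ∀ (y : O₁) (o : O),
      res₁ y = algebraMap O K o → ∃ hx : algebraMap O₁ K₁ y ∈ O₂, res₂ ⟨algebraMap O₁ K₁ y, hx⟩ = res o := by
  have hi₁ : Function.Injective (algebraMap O₁ K₁) := IsFractionRing.injective O₁ K₁
  have hi : Function.Injective (algebraMap O K) := IsFractionRing.injective O K
  have hinv : ∀ (y : O₁) (o : O), res₁ y ≠ 0 → (res₁ y)⁻¹ = algebraMap O K o →
      ∃ y' : O₁, y * y' = 1 ∧ algebraMap O₁ K₁ y' = (algebraMap O₁ K₁ y)⁻¹ ∧ res₁ y' = algebraMap O K o := by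
    intro y o hy ho
    have h1 : IsUnit y := isUnit_of_map_unit res₁ y (isUnit_iff_ne_zero.2 hy)
    obtain ⟨y', hy'⟩ := h1.exists_right_inv
    refine ⟨y', hy', ?_, ?_⟩
    · apply eq_inv_of_mul_eq_one_right
      rw [← map_mul, hy', map_one]
    · rw [← ho]
      apply eq_inv_of_mul_eq_one_right
      rw [← map_mul, hy', map_one]
  let S : Subring K₁ :=
    { carrier := {x | ∃ (y : O₁) (o : O), algebraMap O₁ K₁ y = x ∧ res₁ y = algebraMap O K o}
      mul_mem' := by
        rintro _ _ ⟨y, o, rfl, h⟩ ⟨y', o', rfl, h'⟩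
        exact ⟨y * y', o * o', map_mul _ _ _, by rw [map_mul, map_mul, h, h']⟩
      one_mem' := ⟨1, 1, map_one _, by rw [map_one, map_one]⟩
      add_mem' := by
        rintro _ _ ⟨y, o, rfl, h⟩ ⟨y', o', rfl, h'⟩
        exact ⟨y + y', o + o', map_add _ _ _, by rw [map_add, map_add, h, h']⟩
      zero_mem' := ⟨0, 0, map_zero _, by rw [map_zero, map_zero]⟩
      neg_mem' := by
        rintro _ ⟨y, o, rfl, h⟩
        exact ⟨-y, -o, map_neg _ _, by rw [map_neg, map_neg, h]⟩ }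
  have hS : ∀ x : K₁, x ∈ S ↔ ∃ (y : O₁) (o : O), algebraMap O₁ K₁ y = x ∧ res₁ y = algebraMap O K o :=
    fun x => Iff.rfl
  have hy : ∀ y : O₁, algebraMap O₁ K₁ y ∈ S ∨ (algebraMap O₁ K₁ y)⁻¹ ∈ S := by
    intro y
    rcases ValuationRing.isInteger_or_isInteger O (res₁ y) with ⟨o, ho⟩ | ⟨o, ho⟩
    · exact Or.inl ((hS _).2 ⟨y, o, rfl, ho.symm⟩)
    · by_cases h0 : res₁ y = 0
      · exact Or.inl ((hS _).2 ⟨y, 0, rfl, by rw [h0, map_zero]⟩)
      · obtain ⟨y', -, h2, h3⟩ := hinv y o h0 ho.symm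
        exact Or.inr ((hS _).2 ⟨y', o, h2, h3⟩)
  let O₂ : ValuationSubring K₁ :=
    { S with
      mem_or_inv_mem' := by
        intro x
        rcases ValuationRing.isInteger_or_isInteger O₁ x with ⟨y, h⟩ | ⟨y, h⟩
        · have h1 : algebraMap O₁ K₁ y = x := h
          have h2 := hy y
          rw [h1] at h2
          exact h2
        · have h1 : algebraMap O₁ K₁ y = x⁻¹ := h
          have h2 := hy y
          rw [h1, inv_inv] at h2
          exact h2.symm }
  have hO₂ : ∀ x : K₁, x ∈ O₂ ↔ ∃ (y : O₁) (o : O), algebraMap O₁ K₁ y = x ∧ res₁ y = algebraMap O K o :=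
    fun x => Iff.rfl
  have hex : ∀ x : O₂, ∃ (o : O), ∃ y : O₁, algebraMap O₁ K₁ y = (x : K₁) ∧ res₁ y = algebraMap O K o := by
    intro x
    obtain ⟨y, o, h1, h2⟩ := (hO₂ x).1 x.2
    exact ⟨o, y, h1, h2⟩
  choose oo hoo using hex
  have huniq : ∀ (x : O₂) (y : O₁) (o : O), algebraMap O₁ K₁ y = (x : K₁) → res₁ y = algebraMap O K o →
      oo x = o := by
    intro x y o h1 h2
    obtain ⟨y', h3, h4⟩ := hoo x
    have h5 : y' = y := hi₁ (h3.trans h1.symm)
    apply hi
    rw [← h4, ← h2, h5]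
  let res₂ : O₂ →+* F :=
    { toFun := fun x => res (oo x)
      map_one' := by
        rw [huniq 1 1 1 (by rw [map_one]; rfl) (by rw [map_one, map_one]), map_one]
      map_mul' := by
        intro x x'
        obtain ⟨y, h1, h2⟩ := hoo x
        obtain ⟨y', h1', h2'⟩ := hoo x'
        rw [huniq (x * x') (y * y') (oo x * oo x') (by rw [map_mul, h1, h1']; rfl)
          (by rw [map_mul, map_mul, h2, h2']), map_mul]
      map_zero' := by
        rw [huniq 0 0 0 (by rw [map_zero]; rfl) (by rw [map_zero, map_zero]), map_zero]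
      map_add' := by
        intro x x'
        obtain ⟨y, h1, h2⟩ := hoo x
        obtain ⟨y', h1', h2'⟩ := hoo x'
        rw [huniq (x + x') (y + y') (oo x + oo x') (by rw [map_add, h1, h1']; rfl)
          (by rw [map_add, map_add, h2, h2']), map_add] }
  have hres₂ : ∀ x : O₂, res₂ x = res (oo x) := fun x => rfl
  refine ⟨O₂, res₂, ⟨?_⟩, ?_⟩
  · intro x hx
    rw [hres₂] at hx
    have h1 : IsUnit (oo x) := isUnit_of_map_unit res _ hx
    obtain ⟨o', ho'⟩ := h1.exists_right_inv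
    obtain ⟨y, h2, h3⟩ := hoo x
    have h4 : res₁ y * algebraMap O K o' = 1 := by rw [h3, ← map_mul, ho', map_one]
    have h5 : res₁ y ≠ 0 := left_ne_zero_of_mul_eq_one h4
    obtain ⟨y', h6, h7, h8⟩ := hinv y o' h5 (by rw [← eq_inv_of_mul_eq_one_right h4])
    have h9 : algebraMap O₁ K₁ y' ∈ O₂ := (hO₂ _).2 ⟨y', o', rfl, h8⟩
    refine IsUnit.of_mul_eq_one (⟨_, h9⟩ : O₂) ?_
    apply Subtype.ext
    show (x : K₁) * algebraMap O₁ K₁ y' = 1
    rw [← h2, ← map_mul, h6, map_one]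
  · intro y o ho
    refine ⟨(hO₂ _).2 ⟨y, o, rfl, ho⟩, ?_⟩
    rw [hres₂, huniq _ y o rfl ho]

/-- a polynomial with coefficients in a subring -/
private theorem Comp_lift {O₁ K₁ F : Type*} [CommRing O₁] [Field K₁] [Algebra O₁ K₁] [Field F]
    (O₂ : ValuationSubring K₁) (res₂ : O₂ →+* F) {n : ℕ} (h' : MvPolynomial (Fin n) O₁)
    (P : MvPolynomial (Fin n) F)
    (hc : ∀ t, ∃ hx : algebraMap O₁ K₁ (coeff t h') ∈ O₂, res₂ ⟨_, hx⟩ = coeff t P) :
    ∃ h₂ : MvPolynomial (Fin n) O₂, MvPolynomial.map (algebraMap O₂ K₁) h₂ = MvPolynomial.map (algebraMap O₁ K₁) h' ∧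
      MvPolynomial.map res₂ h₂ = P := by
  choose hx hx' using hc
  have hcoeff : ∀ t, coeff t (∑ t ∈ h'.support, monomial t (⟨_, hx t⟩ : O₂)) = ⟨_, hx t⟩ := by
    intro t
    rw [coeff_sum]
    by_cases ht : t ∈ h'.support
    · rw [Finset.sum_eq_single t]
      · rw [coeff_monomial, if_pos rfl]
      · intro t' _ hne
        rw [coeff_monomial, if_neg hne]
      · intro hh
        exact absurd ht hh
    · rw [Finset.sum_eq_zero]
      · apply Subtype.ext
        show (0 : K₁) = algebraMap O₁ K₁ (coeff t h')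
        rw [notMem_support_iff.1 ht, map_zero]
      · intro t' ht'
        rw [coeff_monomial, if_neg]
        rintro rfl
        exact ht ht'
  refine ⟨∑ t ∈ h'.support, monomial t (⟨_, hx t⟩ : O₂), ?_, ?_⟩
  · ext t
    rw [coeff_map, coeff_map, hcoeff]
    rfl
  · ext t
    rw [coeff_map, hcoeff, hx']

theorem limit_nrm.{u} {n : ℕ} (κ k w r c D Δ : ℕ) {O K F : Type u} [CommRing O] [IsDomain O]
    [ValuationRing O] [Field K] [Algebra O K] [IsFractionRing O K] [Field F] (res : O →+* F)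
    [IsLocalHom res] {f : MvPolynomial (Fin n) K}
    (hf : LimitLeaves.{u, u, u} n κ k w r c D Δ f) (s : Fin n →₀ ℕ) (hs : coeff s f ≠ 0)
    (G : MvPolynomial (Fin n) O)
    (hG : MvPolynomial.map (algebraMap O K) G = C (coeff s f)⁻¹ * (f - C (coeff 0 f))) :
    LimitLeaves.{u, u, u} n κ k w r c D Δ (MvPolynomial.map res G) := by
  obtain ⟨O₁, _, _, _, K₁, _, _, _, res₁, _, β, N, T, h, hT1, hT2, hT3, rfl⟩ := hf
  obtain ⟨O₂, res₂, hloc, hP⟩ := Comp_place (O₁ := O₁) (K₁ := K₁) res₁ res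
  rw [coeff_map] at hs
  have hu : IsUnit (coeff s h) := isUnit_of_map_unit res₁ _ (isUnit_iff_ne_zero.2 hs)
  obtain ⟨u', hu'⟩ := hu.exists_right_inv
  have hu2 : res₁ u' = (res₁ (coeff s h))⁻¹ := by
    apply eq_inv_of_mul_eq_one_right
    rw [← map_mul, hu', map_one]
  have h1 : MvPolynomial.map res₁ (C u' * (h - C (coeff 0 h))) = MvPolynomial.map (algebraMap O K) G := by
    rw [hG, map_mul, map_sub, map_C, map_C, hu2, coeff_map, coeff_map]
  obtain ⟨h₂, hh1, hh2⟩ := Comp_lift (O₁ := O₁) O₂ res₂ (C u' * (h - C (coeff 0 h))) (MvPolynomial.map res G)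
    (fun t => by
      have h2 := congrArg (coeff t) h1
      rw [coeff_map, coeff_map] at h2
      obtain ⟨hx, hx'⟩ := hP _ _ h2
      exact ⟨hx, by rw [hx', coeff_map]⟩)
  refine ⟨O₂, inferInstance, inferInstance, inferInstance, K₁, inferInstance, inferInstance, inferInstance, res₂, hloc,
    β, N, T, h₂, hT1, hT2, ?_, hh2.symm⟩
  rw [hh1, map_mul, map_sub, map_C, map_C]
  have h3 : ∀ a : K₁, IsAlgebraic (Algebra.adjoin K₁ (Set.range T)) (C a : MvPolynomial (Fin n) K₁) := by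
    intro a
    exact isAlgebraic_algebraMap (R := Algebra.adjoin K₁ (Set.range T)) (A := MvPolynomial (Fin n) K₁)
      ⟨C a, Subalgebra.algebraMap_mem _ a⟩
  exact (h3 _).mul (hT3.sub (h3 _))

end Pool.Agent.ROC
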