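import Pool.Agent.ROQ.Gate
import Pool.Agent.ROQ.Leaf
import Pool.Agent.ROL.Leaf
import Pool.Agent.ORB.Gen

/-!
MODULE ROC-Dsj.  Nonconstant polynomials without common variables are algebraically independent.
-/

set_option autoImplicit false

namespace Pool.Agent.ROC

open MvPolynomial

theorem indep_of_disjoint {F : Type*} [Field F] [CharZero F] {n : ℕ} {ι : Type*} [Fintype ι]
    (b : ι → MvPolynomial (Fin n) F) (hb : ∀ j a, b j ≠ C a)
    (hd : ∀ j l, j ≠ l → Disjoint (b j).vars (b l).vars) : AlgebraicIndependent F b := by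
  have h1 : ∀ j, ∃ i, pderiv i (b j) ≠ 0 := by
    intro j
    obtain ⟨i, hi⟩ := Pool.Agent.ROL.exists_pderiv (fun i => (X i : MvPolynomial (Fin n) F)) (b j) (by
      intro c
      rw [aeval_X_left_apply]
      exact hb j c)
    exact ⟨i, by rwa [aeval_X_left_apply] at hi⟩
  choose i hi using h1
  obtain ⟨β, hβ⟩ := Pool.Agent.ORB.exists_eval_ne_zero (f := ∏ j, pderiv (i j) (b j))
    (Finset.prod_ne_zero_iff.2 fun j _ => hi j)
  rw [map_prod, Finset.prod_ne_zero_iff] at hβ
  have h2 := Pool.Agent.ROQ.gate_indep (Fintype.card ι + 1) β (by omega) b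
    (fun j => Pool.Agent.ROQ.mv_of_pderiv _ (by omega) β (b j) (i j) (hβ j (Finset.mem_univ j))) hd
  rw [algebraicIndependent_iff] at h2 ⊢
  intro P hP
  apply h2
  have h3 := MvPolynomial.comp_aeval_apply b (Pool.Agent.ROQ.sub (Fintype.card ι + 1) β) P
  rw [hP, map_zero] at h3
  exact h3.symm

end Pool.Agent.ROC
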