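import Pool.Agent.ROQ.Defs

/-!
MODULE ROC-Red.  Algebraic relations reduce to algebraic relations.

PLAN.  Write `φ = map (algebraMap O K)` (injective) and `ρ = map res`.  By `hG` there is a nonzero
polynomial over `adjoin K (range (φ ∘ b))` vanishing at `φ G`; its coefficients are values of
polynomials (`Algebra.adjoin_range_eq_range_aeval`), so there is `Q : Polynomial (MvPolynomial ι K)`
(lift the coefficients one by one) with `∑ l, aeval (φ ∘ b) (Q.coeff l) * (φ G) ^ l = 0`, `Q ≠ 0`.
Only finitely many elements of `K` occur as coefficients of the coefficients of `Q`; choose one, `c ≠ 0`,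
such that all quotients by `c` are in the image of `O` (`ValuationRing` is total: finite induction or
`Finset.exists_max_image` for `ValuationRing.valuation O K`), divide: there is
`Q' : Polynomial (MvPolynomial ι O)` (or use `MvPolynomial (Option ι) O` throughout, with
`MvPolynomial.optionEquivLeft`, or a finite family of coefficients) with image `c⁻¹ Q` and one
coefficient equal to `1`.  By injectivity of `φ`, `∑ l, aeval b (Q'.coeff l) * G ^ l = 0` over `O`.
Apply `ρ`: `∑ l, aeval (ρ ∘ b) (map res (Q'.coeff l)) * (ρ G) ^ l = 0`, and some
`map res (Q'.coeff l)` has a coefficient `1`, so it is not `0`, so its value at `ρ ∘ b` is not `0` by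
`hb`.  This is a nonzero polynomial over `adjoin F (range (ρ ∘ b))` vanishing at `ρ G`.
The locality of `res` is not needed.
-/

set_option autoImplicit false

namespace Pool.Agent.ROC

open MvPolynomial

private theorem rocRed_map {O S : Type*} [CommRing O] [CommRing S] (f : O →+* S) {n : ℕ} {κ : Type*}
    (x : κ → MvPolynomial (Fin n) O) (P : MvPolynomial κ O) :
    MvPolynomial.map f (aeval x P) = aeval (fun j => MvPolynomial.map f (x j)) (MvPolynomial.map f P) := by
  induction P using MvPolynomial.induction_on with
  | C a => rw [aeval_C, map_C, aeval_C, algebraMap_eq, algebraMap_eq, map_C]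
  | add p q hp hq => rw [map_add, map_add, map_add, map_add, hp, hq]
  | mul_X p i hp => rw [map_mul, map_mul, map_mul, map_mul, hp, aeval_X, map_X, aeval_X]

/-- a nonzero polynomial over the fraction field is a multiple of one over the valuation ring with a
coefficient one -/
private theorem rocRed_norm {O K : Type*} [CommRing O] [IsDomain O] [ValuationRing O] [Field K] [Algebra O K]
    [IsFractionRing O K] {κ : Type*} (P : MvPolynomial κ K) (hP : P ≠ 0) :
    ∃ (c : K) (Q : MvPolynomial κ O) (m : κ →₀ ℕ), MvPolynomial.map (algebraMap O K) Q = C c * P ∧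
      coeff m Q = 1 := by
  classical
  obtain ⟨m, hm, hmax⟩ := Finset.exists_max_image P.support (fun m => ValuationRing.valuation O K (coeff m P))
    (support_nonempty.2 hP)
  have hm0 : coeff m P ≠ 0 := mem_support_iff.1 hm
  have hex : ∀ m', ∃ o : O, algebraMap O K o = (coeff m P)⁻¹ * coeff m' P := by
    intro m'
    rw [← ValuationRing.mem_integer_iff, Valuation.mem_integer_iff, map_mul, map_inv₀]
    have hv0 : ValuationRing.valuation O K (coeff m P) ≠ 0 := (Valuation.ne_zero_iff _).2 hm0
    by_cases h0 : coeff m' P = 0
    · rw [h0, map_zero, mul_zero]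
      exact zero_le_one' _
    · have h1 := hmax m' (mem_support_iff.2 h0)
      calc _ ≤ (ValuationRing.valuation O K (coeff m P))⁻¹ * ValuationRing.valuation O K (coeff m P) := by
            gcongr
        _ = 1 := inv_mul_cancel₀ hv0
  choose o ho using hex
  have hmap : MvPolynomial.map (algebraMap O K) (∑ m' ∈ P.support, monomial m' (o m')) = C (coeff m P)⁻¹ * P := by
    rw [map_sum]
    conv_rhs => arg 2; rw [← support_sum_monomial_coeff P]
    rw [Finset.mul_sum]
    exact Finset.sum_congr rfl fun m' _ => by rw [map_monomial, ho, C_mul_monomial]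
  refine ⟨(coeff m P)⁻¹, ∑ m' ∈ P.support, monomial m' (o m'), m, hmap, ?_⟩
  apply IsFractionRing.injective O K
  rw [map_one, ← coeff_map, hmap, coeff_C_mul, inv_mul_cancel₀ hm0]

private theorem rocRed_ind {O K F : Type*} [CommRing O] [IsDomain O] [ValuationRing O] [Field K] [Algebra O K]
    [IsFractionRing O K] [Field F] (res : O →+* F) {n : ℕ} {κ : Type*}
    (x : κ → MvPolynomial (Fin n) O)
    (hx : AlgebraicIndependent F fun j => MvPolynomial.map res (x j)) :
    AlgebraicIndependent K fun j => MvPolynomial.map (algebraMap O K) (x j) := by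
  rw [algebraicIndependent_iff]
  intro P hP
  by_contra h0
  obtain ⟨c, Q, m, hQ, hm⟩ := rocRed_norm (O := O) P h0
  have h1 : MvPolynomial.map (algebraMap O K) (aeval x Q) = 0 := by
    rw [rocRed_map, hQ, map_mul, hP, mul_zero]
  have h2 : aeval x Q = 0 := by
    apply map_injective _ (IsFractionRing.injective O K)
    rw [h1, map_zero]
  have h3 : aeval (fun j => MvPolynomial.map res (x j)) (MvPolynomial.map res Q) = 0 := by
    rw [← rocRed_map, h2, map_zero]
  have h4 := algebraicIndependent_iff.1 hx _ h3
  have h5 : coeff m (MvPolynomial.map res Q) = 0 := by rw [h4, coeff_zero]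
  rw [coeff_map, hm, map_one] at h5
  exact one_ne_zero h5

theorem red_alg {O K F : Type*} [CommRing O] [IsDomain O] [ValuationRing O] [Field K] [Algebra O K]
    [IsFractionRing O K] [Field F] (res : O →+* F) {n : ℕ} {ι : Type*}
    (b : ι → MvPolynomial (Fin n) O)
    (hb : AlgebraicIndependent F fun j => MvPolynomial.map res (b j)) (G : MvPolynomial (Fin n) O)
    (hG : IsAlgebraic (Algebra.adjoin K (Set.range fun j => MvPolynomial.map (algebraMap O K) (b j)))
      (MvPolynomial.map (algebraMap O K) G)) :
    IsAlgebraic (Algebra.adjoin F (Set.range fun j => MvPolynomial.map res (b j)))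
      (MvPolynomial.map res G) := by
  by_contra hc
  have hbK := rocRed_ind (K := K) res b hb
  have h1 := (hb.option_iff_transcendental (MvPolynomial.map res G)).2 hc
  have h2 : AlgebraicIndependent F fun o : Option ι => MvPolynomial.map res (o.elim G b) := by
    refine (algebraicIndependent_equiv' (Equiv.refl _) ?_).1 h1
    funext o
    cases o <;> rfl
  have h3 := rocRed_ind (K := K) res (fun o : Option ι => o.elim G b) h2
  have h4 : AlgebraicIndependent K fun o : Option ι =>
      o.elim (MvPolynomial.map (algebraMap O K) G) (fun j => MvPolynomial.map (algebraMap O K) (b j)) := by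
    refine (algebraicIndependent_equiv' (Equiv.refl _) ?_).1 h3
    funext o
    cases o <;> rfl
  exact (hbK.option_iff_transcendental _).1 h4 hG

end Pool.Agent.ROC
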