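import Pool.Agent.ROC.Nrm
import Pool.Agent.ROC.Red
import Pool.Agent.ROC.Dsj

/-!
MODULE ROC-Lro.  Limits of read-once formulas are read-once formulas over limits.

`φ = map (algebraMap O K)`, `ρ = map res`: a read-once formula over the fraction field of a valuation
ring with integral coefficients has a read-once residue, with leaves in the class of the residues of
the normalized leaves.
-/

set_option autoImplicit false

namespace Pool.Agent.ROC

open MvPolynomial
open Pool.Agent.ROQ (RO)

theorem ro_gate' {F : Type*} [Field F] {n p : ℕ} {𝓛 : MvPolynomial (Fin n) F → Prop} {ι : Type*}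
    [Fintype ι] (hι : Fintype.card ι ≤ p + 1) (b : ι → MvPolynomial (Fin n) F)
    (hb : ∀ j, RO p 𝓛 (b j)) (hd : ∀ j l, j ≠ l → Disjoint (b j).vars (b l).vars)
    {f : MvPolynomial (Fin n) F} (hf : IsAlgebraic (Algebra.adjoin F (Set.range b)) f) :
    RO p 𝓛 f := by
  classical
  have h : Set.range (fun j => b ((Fintype.equivFin ι).symm j)) = Set.range b :=
    (Fintype.equivFin ι).symm.surjective.range_comp b
  refine RO.gate (k := Fintype.card ι) hι (fun j => b ((Fintype.equivFin ι).symm j))
    (fun j => hb _) (fun j l hjl => hd _ _ fun h1 => hjl ((Fintype.equivFin ι).symm.injective h1)) ?_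
  rw [h]
  exact hf

private theorem Lro_vars {K : Type*} [Field K] {n : ℕ} (c a : K) (f : MvPolynomial (Fin n) K) :
    (C c * (f - C a)).vars ⊆ f.vars := by
  refine (vars_mul _ _).trans ?_
  rw [vars_C, Finset.empty_union]
  refine (vars_sub_subset _).trans ?_
  rw [vars_C, Finset.union_empty]

private theorem Lro_mono {K : Type*} [Field K] {n : ℕ} {A A' : Subalgebra K (MvPolynomial (Fin n) K)}
    (h : A ≤ A') {f : MvPolynomial (Fin n) K} (hf : IsAlgebraic A f) : IsAlgebraic A' f := by
  obtain ⟨P, hP, hPf⟩ := hf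
  refine ⟨P.map (Subalgebra.inclusion h).toRingHom, ?_, ?_⟩
  · rw [Ne, Polynomial.map_eq_zero_iff (Subalgebra.inclusion_injective h)]
    exact hP
  · rw [Polynomial.aeval_def, Polynomial.eval₂_map]
    exact hPf

private theorem Lro_C {K : Type*} [Field K] {n : ℕ} (A : Subalgebra K (MvPolynomial (Fin n) K))
    (a : K) : IsAlgebraic A (C a : MvPolynomial (Fin n) K) :=
  isAlgebraic_algebraMap (A := MvPolynomial (Fin n) K)
    (⟨C a, A.algebraMap_mem a⟩ : A)

private theorem Lro_expand {K : Type*} [Field K] {n : ℕ} {c a : K} (hc : c ≠ 0)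
    {f g : MvPolynomial (Fin n) K} (h : g = C c⁻¹ * (f - C a)) : f = C c * g + C a := by
  rw [h, ← mul_assoc, ← C_mul, mul_inv_cancel₀ hc, C_1, one_mul, sub_add_cancel]

theorem ro_nrm {O K F : Type*} [CommRing O] [IsDomain O] [ValuationRing O] [Field K] [Algebra O K]
    [IsFractionRing O K] [Field F] [CharZero F] (res : O →+* F) {n p : ℕ}
    {𝓛 : MvPolynomial (Fin n) K → Prop} {𝓛' : MvPolynomial (Fin n) F → Prop}
    (h𝓛 : ∀ f, 𝓛 f → ∀ s, coeff s f ≠ 0 → ∀ G : MvPolynomial (Fin n) O,
      MvPolynomial.map (algebraMap O K) G = C (coeff s f)⁻¹ * (f - C (coeff 0 f)) →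
      𝓛' (MvPolynomial.map res G))
    {f : MvPolynomial (Fin n) K} (hf : RO p 𝓛 f) (hc : ∀ a, f ≠ C a) :
    ∃ (s : Fin n →₀ ℕ) (G : MvPolynomial (Fin n) O), s ≠ 0 ∧ coeff s f ≠ 0 ∧
      MvPolynomial.map (algebraMap O K) G = C (coeff s f)⁻¹ * (f - C (coeff 0 f)) ∧
      coeff s G = 1 ∧ RO p 𝓛' (MvPolynomial.map res G) := by
  classical
  induction hf with
  | leaf hf =>
    obtain ⟨s, G, hs, hsf, hG, h1⟩ := exists_nrm (O := O) _ hc
    exact ⟨s, G, hs, hsf, hG, h1, RO.leaf (h𝓛 _ hf s hsf G hG)⟩
  | @gate k hk b hb hd f hf ih =>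
    obtain ⟨s, G, hs, hsf, hG, h1⟩ := exists_nrm (O := O) _ hc
    refine ⟨s, G, hs, hsf, hG, h1, ?_⟩
    choose sj Gj hsj hsbj hGj h1j hroj using fun j : {j : Fin k // ∀ a, b j ≠ C a} => ih j.1 j.2
    have hvars : ∀ j, (MvPolynomial.map res (Gj j)).vars ⊆ (b j.1).vars := by
      intro j
      refine (vars_map _ res).trans ?_
      rw [← vars_map_of_injective (Gj j) (IsFractionRing.injective O K), hGj j]
      exact Lro_vars _ _ _
    have hdj : ∀ j l, j ≠ l →
        Disjoint (MvPolynomial.map res (Gj j)).vars (MvPolynomial.map res (Gj l)).vars := by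
      intro j l hjl
      exact Disjoint.mono (hvars j) (hvars l) (hd j.1 l.1 fun h => hjl (Subtype.ext h))
    refine ro_gate' (ι := {j : Fin k // ∀ a, b j ≠ C a}) ?_ (fun j => MvPolynomial.map res (Gj j))
      hroj hdj ?_
    · calc Fintype.card {j : Fin k // ∀ a, b j ≠ C a} ≤ Fintype.card (Fin k) :=
            Fintype.card_subtype_le _
        _ = k := Fintype.card_fin k
        _ ≤ p + 1 := hk
    · refine red_alg (K := K) res Gj (indep_of_disjoint _ ?_ hdj) G ?_
      · intro j a h
        have h2 : coeff (sj j) (MvPolynomial.map res (Gj j)) = coeff (sj j) (C a) := by rw [h]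
        rw [coeff_map, h1j j, map_one, coeff_C, if_neg (fun h3 => hsj j h3.symm)] at h2
        exact one_ne_zero h2
      · have hle : Algebra.adjoin K (Set.range b) ≤ Algebra.adjoin K
            (Set.range fun j => MvPolynomial.map (algebraMap O K) (Gj j)) := by
          rw [Algebra.adjoin_le_iff]
          rintro _ ⟨j, rfl⟩
          by_cases hj : ∀ a, b j ≠ C a
          · have h2 := Lro_expand (hsbj ⟨j, hj⟩) (hGj ⟨j, hj⟩)
            rw [h2]
            refine Subalgebra.add_mem _ (Subalgebra.mul_mem _ (Subalgebra.algebraMap_mem _ _)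
              (Algebra.subset_adjoin ⟨⟨j, hj⟩, rfl⟩)) (Subalgebra.algebraMap_mem _ _)
          · push Not at hj
            obtain ⟨a, ha⟩ := hj
            rw [ha]
            exact Subalgebra.algebraMap_mem _ a
        rw [hG]
        exact (Lro_C _ _).mul ((Lro_mono hle hf).sub (Lro_C _ _))

theorem ro_limit {O K F : Type*} [CommRing O] [IsDomain O] [ValuationRing O] [Field K] [Algebra O K]
    [IsFractionRing O K] [Field F] [CharZero F] (res : O →+* F) {n p : ℕ}
    {𝓛 : MvPolynomial (Fin n) K → Prop} {𝓛' : MvPolynomial (Fin n) F → Prop}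
    (h𝓛 : ∀ f, 𝓛 f → ∀ s, coeff s f ≠ 0 → ∀ G : MvPolynomial (Fin n) O,
      MvPolynomial.map (algebraMap O K) G = C (coeff s f)⁻¹ * (f - C (coeff 0 f)) →
      𝓛' (MvPolynomial.map res G))
    (G : MvPolynomial (Fin n) O) (hG : RO p 𝓛 (MvPolynomial.map (algebraMap O K) G)) :
    RO p 𝓛' (MvPolynomial.map res G) := by
  classical
  have hinj : Function.Injective (algebraMap O K) := IsFractionRing.injective O K
  by_cases hcst : ∀ a, MvPolynomial.map (algebraMap O K) G ≠ C a
  · obtain ⟨s, G₁, _, hsf, hG₁, _, hro⟩ := ro_nrm res h𝓛 hG hcst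
    have h1 := Lro_expand hsf hG₁
    rw [coeff_map, coeff_map, ← map_C (algebraMap O K), ← map_C (algebraMap O K), ← map_mul,
      ← map_add] at h1
    have h2 := map_injective _ hinj h1
    have h3 : MvPolynomial.map res G = C (res (coeff s G)) * MvPolynomial.map res G₁ +
        C (res (coeff 0 G)) := by
      conv_lhs => rw [h2]
      rw [map_add, map_mul, map_C, map_C]
    refine RO.gate (k := 1) (by omega) (fun _ => MvPolynomial.map res G₁) (fun _ => hro)
      (fun j l hjl => absurd (Subsingleton.elim j l) hjl) ?_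
    rw [h3]
    exact isAlgebraic_algebraMap (A := MvPolynomial (Fin n) F)
      (⟨_, Subalgebra.add_mem _ (Subalgebra.mul_mem _ (Subalgebra.algebraMap_mem _ _)
        (Algebra.subset_adjoin ⟨0, rfl⟩)) (Subalgebra.algebraMap_mem _ _)⟩ :
        Algebra.adjoin F (Set.range fun _ : Fin 1 => MvPolynomial.map res G₁))
  · push Not at hcst
    obtain ⟨a, ha⟩ := hcst
    have h1 : G = C (coeff 0 G) := by
      apply MvPolynomial.ext
      intro t
      rw [coeff_C]
      split_ifs with h0
      · rw [← h0]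
      · apply hinj
        rw [← coeff_map, ha, coeff_C, if_neg h0, map_zero]
    rw [h1, map_C]
    refine RO.gate (k := 0) (by omega) (fun j => Fin.elim0 j) (fun j => Fin.elim0 j)
      (fun j => Fin.elim0 j) (Lro_C _ _)

end Pool.Agent.ROC
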