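import Pool.Agent.ROC.Lro
import Pool.Agent.ROC.Comp

/-!
Project ROC: read-once formulas over limits are closed under limits.
-/

set_option autoImplicit false

namespace Pool.Agent.ROC

open MvPolynomial
open Pool.Agent.ROQ (RO)
open Pool.Agent.TXL

theorem ro_closed.{u} {n p : ℕ} (κ k w r c D Δ : ℕ) {O K F : Type u} [CommRing O] [IsDomain O]
    [ValuationRing O] [Field K] [Algebra O K] [IsFractionRing O K] [Field F] [CharZero F]
    (res : O →+* F) [IsLocalHom res] (G : MvPolynomial (Fin n) O)
    (hG : RO p (LimitLeaves.{u, u, u} n κ k w r c D Δ) (MvPolynomial.map (algebraMap O K) G)) :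
    RO p (LimitLeaves.{u, u, u} n κ k w r c D Δ) (MvPolynomial.map res G) :=
  ro_limit res (fun f hf s hs G' hG' => limit_nrm κ k w r c D Δ res hf s hs G' hG') G hG

end Pool.Agent.ROC
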