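import Pool.Agent.ROQ.Defs

/-!
MODULE ROC-Nrm.  (Project ROC: read-once formulas over limits are closed under limits.)
Normalization of polynomials over the fraction field of a valuation ring.

PLAN.  `f` is not a constant, so the finite set `S` of the `s ≠ 0` in the support is nonempty (otherwise
`f = C (coeff 0 f)`: `MvPolynomial.ext`, `coeff_C`).  For `a b : K`, `b ≠ 0`: `a * b⁻¹` or `b * a⁻¹` is in the
image of `O` (`ValuationRing.isInteger_or_isInteger`, `ValuationRing.cond`, `mem_integer`...).  Choose
`s ∈ S` such that `coeff t f * (coeff s f)⁻¹` is in the image of `O` for all `t ∈ S`: induction on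
finsets (`Finset.induction_on`), or `Finset.exists_max_image` for `ValuationRing.valuation O K`
(`ValuationRing.mem_integer_iff`: `x` is in the image of `O` iff `valuation x ≤ 1`).  Then all
coefficients of `C (coeff s f)⁻¹ * (f - C (coeff 0 f))` are in the image of `O`, so the polynomial is
in the range of `map (algebraMap O K)` (`MvPolynomial.mem_range_map_iff_coeffs_subset` or a sum of
monomials).  `coeff s G = 1` by injectivity of `algebraMap O K`.
-/

set_option autoImplicit false

namespace Pool.Agent.ROC

open MvPolynomial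

theorem exists_nrm {O K : Type*} [CommRing O] [IsDomain O] [ValuationRing O] [Field K] [Algebra O K]
    [IsFractionRing O K] {n : ℕ} (f : MvPolynomial (Fin n) K) (hf : ∀ a, f ≠ C a) :
    ∃ (s : Fin n →₀ ℕ) (G : MvPolynomial (Fin n) O), s ≠ 0 ∧ coeff s f ≠ 0 ∧
      MvPolynomial.map (algebraMap O K) G = C (coeff s f)⁻¹ * (f - C (coeff 0 f)) ∧
      coeff s G = 1 := by
  classical
  have hinj : Function.Injective (algebraMap O K) := IsFractionRing.injective O K
  -- the nonzero part of the support is nonempty
  obtain ⟨S, hS⟩ : ∃ S : Finset (Fin n →₀ ℕ), S = f.support.erase 0 := ⟨_, rfl⟩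
  have hmemS : ∀ t, t ∈ S ↔ t ≠ 0 ∧ coeff t f ≠ 0 := by
    intro t
    rw [hS, Finset.mem_erase, MvPolynomial.mem_support_iff]
  have hne : S.Nonempty := by
    by_contra hcon
    rw [Finset.not_nonempty_iff_eq_empty] at hcon
    apply hf (coeff 0 f)
    apply MvPolynomial.ext
    intro t
    rw [coeff_C]
    split_ifs with h0
    · rw [← h0]
    · by_contra hc
      have : t ∈ S := (hmemS t).2 ⟨fun h => h0 h.symm, hc⟩
      rw [hcon] at this
      simp at this
  obtain ⟨s, hs, hmax⟩ := Finset.exists_max_image S
    (fun t => ValuationRing.valuation O K (coeff t f)) hne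
  obtain ⟨hs0, hsf⟩ := (hmemS s).1 hs
  have hc0 : coeff 0 (f - C (coeff 0 f)) = 0 := by
    rw [coeff_sub, coeff_C]
    simp
  have hct : ∀ t, t ≠ 0 → coeff t (f - C (coeff 0 f)) = coeff t f := by
    intro t ht
    rw [coeff_sub, coeff_C, if_neg (fun h => ht h.symm), sub_zero]
  have hint : ∀ t, ∃ a : O, algebraMap O K a =
      coeff t (C (coeff s f)⁻¹ * (f - C (coeff 0 f))) := by
    intro t
    rw [coeff_C_mul]
    by_cases ht : t = 0
    · subst ht
      exact ⟨0, by rw [hc0, map_zero, mul_zero]⟩
    · rw [hct t ht]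
      by_cases htf : coeff t f = 0
      · exact ⟨0, by rw [htf, map_zero, mul_zero]⟩
      · have h1 := hmax t ((hmemS t).2 ⟨ht, htf⟩)
        have h2 : ValuationRing.valuation O K ((coeff s f)⁻¹ * coeff t f) ≤ 1 := by
          rw [map_mul, map_inv₀, mul_comm]
          have h3 : ValuationRing.valuation O K (coeff s f) ≠ 0 := by
            rw [Valuation.ne_zero_iff]
            exact hsf
          rw [← div_eq_mul_inv]
          exact div_le_one_of_le₀ h1 zero_le
        exact (ValuationRing.mem_integer_iff O K _).1 h2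
  choose g hg using hint
  have hrange : ∃ G : MvPolynomial (Fin n) O, MvPolynomial.map (algebraMap O K) G =
      C (coeff s f)⁻¹ * (f - C (coeff 0 f)) := by
    refine ⟨∑ t ∈ (C (coeff s f)⁻¹ * (f - C (coeff 0 f))).support, monomial t (g t), ?_⟩
    rw [map_sum]
    conv_rhs => rw [MvPolynomial.as_sum (C (coeff s f)⁻¹ * (f - C (coeff 0 f)))]
    apply Finset.sum_congr rfl
    intro t _
    rw [map_monomial, hg]
  obtain ⟨G, hG⟩ := hrange
  refine ⟨s, G, hs0, hsf, hG, ?_⟩
  apply hinj
  rw [← coeff_map, hG, coeff_C_mul, hct s hs0, map_one]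
  exact inv_mul_cancel₀ hsf

end Pool.Agent.ROC
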